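import Pool.Agent.Y698.Cls
import Pool.Agent.H723R3.EuclidLocal

/-!
# The places of `K ≃ ℚ(√-7)` of the primes of `ℤ[ω]`
-/

set_option autoImplicit false
set_option linter.unusedSectionVars false

namespace Pool.Agent.T2h20.KE

open NumberField IsDedekindDomain WithZero
open Pool.Agent.Y698 (RR fR aR fR_sq prime_fR aR_sq)

variable {K : Type} [Field K] [NumberField K] (j : RR ≃+* 𝓞 K)

/-- the embedding of the ring -/
noncomputable def jc : RR →+* K := (algebraMap (𝓞 K) K).comp (j : RR →+* 𝓞 K)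

lemma jc_eq (z : RR) : ((j z : 𝓞 K) : K) = jc j z := rfl

/-- the place of a prime element -/
noncomputable def pl {p : RR} (hp : Prime p) : HeightOneSpectrum (𝓞 K) where
  asIdeal := Ideal.span {j p}
  isPrime := (Ideal.span_singleton_prime ((map_ne_zero_iff j j.injective).2 hp.ne_zero)).2
    ((MulEquiv.prime_iff j).2 hp)
  ne_bot := by
    rw [Ne, Ideal.span_singleton_eq_bot]
    exact (map_ne_zero_iff j j.injective).2 hp.ne_zero

lemma mem_pl {p : RR} (hp : Prime p) (x : RR) : j x ∈ (pl j hp).asIdeal ↔ p ∣ x := by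
  show j x ∈ Ideal.span {j p} ↔ _
  rw [Ideal.mem_span_singleton]
  exact map_dvd_iff j

lemma eq_pl {p : RR} (hp : Prime p) {v : HeightOneSpectrum (𝓞 K)} (h : j p ∈ v.asIdeal) :
    v = pl j hp := by
  apply HeightOneSpectrum.ext
  have h1 : (pl j hp).asIdeal ≤ v.asIdeal := by
    show Ideal.span {j p} ≤ v.asIdeal
    rw [Ideal.span_singleton_le_iff_mem]
    exact h
  exact ((pl j hp).isMaximal.eq_of_le v.isPrime.ne_top h1).symm

lemma pl_val {p : RR} (hp : Prime p) : (pl j hp).intValuation (j p) = exp (-1 : ℤ) :=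
  HeightOneSpectrum.intValuation_singleton _ ((map_ne_zero_iff j j.injective).2 hp.ne_zero) rfl

/-- a prime element has the valuations `1` and `exp (-1)` -/
lemma val_cases {p : RR} (hp : Prime p) (v : HeightOneSpectrum (𝓞 K)) :
    v.intValuation (j p) = 1 ∨ (v = pl j hp ∧ v.intValuation (j p) = exp (-1 : ℤ)) := by
  by_cases h : j p ∈ v.asIdeal
  · right
    obtain rfl := eq_pl j hp h
    exact ⟨rfl, pl_val j hp⟩
  · left
    exact HeightOneSpectrum.intValuation_eq_one_iff.2 h

lemma val_eq (v : HeightOneSpectrum (𝓞 K)) (x : 𝓞 K) :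
    Valued.v (algebraMap K (v.adicCompletion K) (x : K)) = v.intValuation x := by
  rw [Pool.Agent.H723R3.valued_algebraMap]
  exact HeightOneSpectrum.valuation_of_algebraMap v x

/-- the valuation of `√-7 D` is `1` or `exp (-1)` -/
lemma val_le (v : HeightOneSpectrum (𝓞 K)) {D : RR} (hD : Squarefree D) (hf : IsCoprime fR D) :
    (exp (-1 : ℤ) : ℤᵐ⁰) ≤ v.intValuation (j (fR * D)) := by
  have hsq : Squarefree (fR * D) :=
    (squarefree_mul_iff.2 ⟨hf.isRelPrime, prime_fR.squarefree, hD⟩)
  have h7 : ¬ v.intValuation (j (fR * D)) ≤ exp (-((2 : ℕ) : ℤ)) := by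
    rw [v.intValuation_le_pow_iff_mem]
    intro h
    obtain ⟨p, hp⟩ := (IsPrincipalIdealRing.of_surjective (j : RR →+* 𝓞 K)
      j.surjective).principal v.asIdeal
    have hp' : v.asIdeal = Ideal.span {p} := hp
    rw [hp', Ideal.span_singleton_pow, Ideal.mem_span_singleton] at h
    have h1 : (j.symm p) * (j.symm p) ∣ fR * D := by
      obtain ⟨c, hc⟩ := h
      refine ⟨j.symm c, ?_⟩
      apply j.injective
      rw [map_mul j (j.symm p * j.symm p), map_mul j (j.symm p), RingEquiv.apply_symm_apply,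
        RingEquiv.apply_symm_apply, hc]
      ring
    have h2 := hsq _ h1
    have h3 : IsUnit p := by
      have := h2.map (j : RR →* 𝓞 K)
      simpa using this
    apply v.isPrime.ne_top
    rw [hp', Ideal.span_singleton_eq_top]
    exact h3
  rw [not_le] at h7
  have hne : v.intValuation (j (fR * D)) ≠ 0 := by
    intro h0
    rw [h0] at h7
    exact absurd h7 (by simp)
  obtain ⟨n, hn⟩ : ∃ n : ℤ, v.intValuation (j (fR * D)) = exp n := ⟨log _, (exp_log hne).symm⟩
  rw [hn] at h7 ⊢
  rw [exp_lt_exp] at h7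
  rw [exp_le_exp]
  push_cast at h7
  omega

end Pool.Agent.T2h20.KE
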