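import Mathlib
import Pool.Agent.Y696.Stm
import Pool.Agent.Y700.VC

/-!
# Good reduction: all the points have nonsingular reduction
-/

set_option autoImplicit false

namespace Pool.Agent.T2h20.KE

open WithZero WeierstrassCurve
open Pool.Agent.Y696 (NonsingRed)
open Pool.Agent.Y700 (VR)

variable {L : Type} [Field L] (v : Valuation L ℤᵐ⁰)

omit v in
theorem delta_pq (a c p q : L) : (⟨a, c, p, q, 0⟩ : WeierstrassCurve L).Δ =
    p * ((a ^ 2 + 4 * c) ^ 2 * a * q - (a ^ 2 + 4 * c) ^ 2 * c * p - 27 * p ^ 3 +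
      9 * (a ^ 2 + 4 * c) * (2 * q + a * p) * p - 8 * (2 * q + a * p) ^ 2 * a) +
    q * ((a ^ 2 + 4 * c) ^ 2 * q - 16 * (2 * q + a * p) ^ 2) := by
  simp only [WeierstrassCurve.Δ, WeierstrassCurve.b₂, WeierstrassCurve.b₄, WeierstrassCurve.b₆,
    WeierstrassCurve.b₈]
  ring

theorem good (W : WeierstrassCurve L) (h1 : v W.a₁ ≤ 1) (h2 : v W.a₂ ≤ 1) (h3 : v W.a₃ ≤ 1)
    (h4 : v W.a₄ ≤ 1) (h6 : v W.a₆ ≤ 1) (hΔ : v W.Δ = 1) (P : W.toAffine.Point) :
    NonsingRed v W P := by
  rcases P with _ | ⟨x, y, h⟩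
  · trivial
  have he : y ^ 2 + W.a₁ * x * y + W.a₃ * y = x ^ 3 + W.a₂ * x ^ 2 + W.a₄ * x + W.a₆ := by
    have := h.1
    rwa [Affine.equation_iff] at this
  show 1 ≤ v (2 * y + W.a₁ * x + W.a₃) ∨ 1 ≤ v (3 * x ^ 2 + 2 * W.a₂ * x + W.a₄ - W.a₁ * y)
  by_contra hc
  rw [not_or, not_le, not_le] at hc
  obtain ⟨hA, hB⟩ := hc
  have h2le : v (2 : L) ≤ 1 := by
    have := v.map_add_le (x := 1) (y := 1) (g := 1) (by rw [map_one]) (by rw [map_one])
    rwa [one_add_one_eq_two] at this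
  by_cases hx : v x ≤ 1
  · -- an integral point
    have hy : v y ≤ 1 := by
      by_contra hy
      rw [not_le] at hy
      have e : y ^ 2 = x ^ 3 + W.a₂ * x ^ 2 + W.a₄ * x + W.a₆ - (W.a₁ * x * y + W.a₃ * y) := by
        linear_combination he
      have l1 : v (x ^ 3 + W.a₂ * x ^ 2 + W.a₄ * x + W.a₆) ≤ 1 := by
        refine v.map_add_le (v.map_add_le (v.map_add_le ?_ ?_) ?_) h6
        · rw [map_pow]; exact pow_le_one₀ zero_le hx
        · rw [map_mul, map_pow]; exact mul_le_one' h2 (pow_le_one₀ zero_le hx)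
        · rw [map_mul]; exact mul_le_one' h4 hx
      have l2 : v (W.a₁ * x * y + W.a₃ * y) ≤ v y := by
        rw [← add_mul, map_mul]
        refine mul_le_of_le_one_left' (v.map_add_le ?_ h3)
        rw [map_mul]; exact mul_le_one' h1 hx
      have l3 : v (y ^ 2) ≤ v y := by
        rw [e]
        exact v.map_sub_le (l1.trans hy.le) l2
      rw [map_pow, sq] at l3
      have l4 : v y ≠ 0 := by
        intro h0
        rw [h0] at hy
        exact absurd hy (by simp)
      have l5 : v y ≤ 1 := by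
        by_contra hc
        rw [not_le] at hc
        have := mul_lt_mul_of_pos_right hc (zero_lt_iff.2 l4)
        rw [one_mul] at this
        exact absurd this (not_lt.2 l3)
      exact absurd hy (not_lt.2 l5)
    set p := 2 * y + W.a₁ * x + W.a₃ with hp
    set q := 3 * x ^ 2 + 2 * W.a₂ * x + W.a₄ - W.a₁ * y with hq
    have hV : VR W ⟨W.a₁, W.a₂ + 3 * x, p, q, 0⟩ 1 x 0 y := by
      refine ⟨one_ne_zero, ?_, ?_, ?_, ?_, ?_⟩
      · simp
      · simp
      · simp only [hp]; ring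
      · simp only [hq]; ring
      · simp only
        linear_combination he
    have hd := hV.delta
    have hint : ∀ z : L, v z ≤ 1 → ∃ z' : v.integer, (z' : L) = z := fun z hz => ⟨⟨z, hz⟩, rfl⟩
    obtain ⟨α₁, hα₁⟩ := hint _ h1
    obtain ⟨α₂, hα₂⟩ := hint _ h2
    obtain ⟨ξ, hξ⟩ := hint _ hx
    obtain ⟨p', hp'⟩ := hint _ hA.le
    obtain ⟨q', hq'⟩ := hint _ hB.le
    have hlt : v W.Δ < 1 := by
      rw [hd, one_pow, one_mul, delta_pq, ← hα₁, ← hα₂, ← hξ, ← hp', ← hq']
      refine v.map_add_lt ?_ ?_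
      · rw [map_mul]
        refine mul_lt_one_of_lt_of_le (by rw [hp']; exact hA) ?_
        exact ((α₁ ^ 2 + 4 * (α₂ + 3 * ξ)) ^ 2 * α₁ * q' -
          (α₁ ^ 2 + 4 * (α₂ + 3 * ξ)) ^ 2 * (α₂ + 3 * ξ) * p' - 27 * p' ^ 3 +
          9 * (α₁ ^ 2 + 4 * (α₂ + 3 * ξ)) * (2 * q' + α₁ * p') * p' -
          8 * (2 * q' + α₁ * p') ^ 2 * α₁ : v.integer).2
      · rw [map_mul]
        refine mul_lt_one_of_lt_of_le (by rw [hq']; exact hB) ?_
        exact ((α₁ ^ 2 + 4 * (α₂ + 3 * ξ)) ^ 2 * q' - 16 * (2 * q' + α₁ * p') ^ 2 : v.integer).2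
    rw [hΔ] at hlt
    exact lt_irrefl _ hlt
  · rw [not_le] at hx
    have hx0 : 0 < v x := zero_lt_one.trans hx
    have hxx : v x < v x ^ 2 := by
      rw [sq]
      simpa using mul_lt_mul_of_pos_right hx hx0
    have hx23 : v x ^ 2 < v x ^ 3 := by
      rw [pow_succ (v x) 2]
      simpa using mul_lt_mul_of_pos_left hx (pow_pos hx0 2)
    have hr : v (x ^ 3 + W.a₂ * x ^ 2 + W.a₄ * x + W.a₆) = v x ^ 3 := by
      have l1 : v (W.a₂ * x ^ 2 + W.a₄ * x + W.a₆) < v (x ^ 3) := by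
        rw [map_pow]
        refine v.map_add_lt (v.map_add_lt ?_ ?_) ?_
        · rw [map_mul, map_pow]
          exact (mul_le_of_le_one_left' h2).trans_lt hx23
        · rw [map_mul]
          exact (mul_le_of_le_one_left' h4).trans_lt (hxx.trans hx23)
        · exact h6.trans_lt (hx.trans (hxx.trans hx23))
      rw [show x ^ 3 + W.a₂ * x ^ 2 + W.a₄ * x + W.a₆ =
        x ^ 3 + (W.a₂ * x ^ 2 + W.a₄ * x + W.a₆) by ring, Valuation.map_add_eq_of_lt_left _ l1,
        map_pow]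
    have hxy : v x < v y := by
      by_contra hc
      rw [not_lt] at hc
      have l1 : v (y ^ 2 + W.a₁ * x * y + W.a₃ * y) ≤ v x ^ 2 := by
        refine v.map_add_le (v.map_add_le ?_ ?_) ?_
        · rw [map_pow]; exact pow_le_pow_left' hc 2
        · rw [map_mul, map_mul, sq]
          exact mul_le_mul' (mul_le_of_le_one_left' h1) hc
        · rw [map_mul]
          exact ((mul_le_of_le_one_left' h3).trans hc).trans hxx.le
      rw [he, hr] at l1
      exact absurd hx23 (not_lt.2 l1)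
    have hy1 : 1 < v y := hx.trans hxy
    have hy0 : 0 < v y := zero_lt_one.trans hy1
    have h2lt : v (2 : L) < 1 := by
      by_contra hc
      have h2e : v (2 : L) = 1 := le_antisymm h2le (not_lt.1 hc)
      have l1 : v (W.a₁ * x + W.a₃) < v (2 * y) := by
        rw [map_mul v 2 y, h2e, one_mul]
        refine v.map_add_lt ?_ (h3.trans_lt hy1)
        rw [map_mul]
        exact (mul_le_of_le_one_left' h1).trans_lt hxy
      rw [add_assoc, Valuation.map_add_eq_of_lt_left _ l1, map_mul, h2e, one_mul] at hA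
      exact absurd hA (not_lt.2 hy1.le)
    have h3e : v (3 : L) = 1 := by
      have e : (3 : L) = 1 + 2 := by norm_num
      rw [e, Valuation.map_add_eq_of_lt_left _ (by rwa [map_one]), map_one]
    have hl : v (y ^ 2 + W.a₁ * x * y + W.a₃ * y) = v y ^ 2 := by
      have l1 : v (W.a₁ * x * y + W.a₃ * y) < v (y ^ 2) := by
        rw [← add_mul, map_mul, map_pow, sq]
        refine mul_lt_mul_of_pos_right (v.map_add_lt ?_ (h3.trans_lt hy1)) hy0
        rw [map_mul]
        exact (mul_le_of_le_one_left' h1).trans_lt hxy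
      rw [add_assoc, Valuation.map_add_eq_of_lt_left _ l1, map_pow]
    have hyx : v y < v x ^ 2 := by
      by_contra hc
      rw [not_lt] at hc
      have l1 : (v x ^ 2) ^ 2 ≤ v y ^ 2 := pow_le_pow_left' hc 2
      rw [← hl, he, hr, ← pow_mul] at l1
      have l2 : v x ^ 3 < v x ^ (2 * 2) := by
        rw [show 2 * 2 = 3 + 1 by norm_num, pow_succ (v x) 3]
        simpa using mul_lt_mul_of_pos_left hx (pow_pos hx0 3)
      exact absurd l2 (not_lt.2 l1)
    have l1 : v (2 * W.a₂ * x + W.a₄ - W.a₁ * y) < v (3 * x ^ 2) := by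
      rw [map_mul v 3, h3e, one_mul, map_pow]
      refine v.map_sub_lt (v.map_add_lt ?_ ?_) ?_
      · rw [map_mul, map_mul]
        exact (mul_le_of_le_one_left' (mul_le_one' h2le h2)).trans_lt hxx
      · exact h4.trans_lt (hx.trans hxx)
      · rw [map_mul]
        exact (mul_le_of_le_one_left' h1).trans_lt hyx
    rw [show 3 * x ^ 2 + 2 * W.a₂ * x + W.a₄ - W.a₁ * y =
      3 * x ^ 2 + (2 * W.a₂ * x + W.a₄ - W.a₁ * y) by ring,
      Valuation.map_add_eq_of_lt_left _ l1, map_mul, h3e, one_mul, map_pow] at hB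
    exact absurd hB (not_lt.2 (hx.trans hxx).le)

end Pool.Agent.T2h20.KE
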