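import Mathlib
import Pool.Agent.H437R2.Man.MWWeak

/-!
# Groups with `A[2]` of order four and `A[4] = A[2]`; the curves `y² = (x + e₁) (x + e₂) (x + e₃)`
-/

set_option autoImplicit false

namespace Pool.Agent.T2h20.KE

open WeierstrassCurve
open Pool.Agent.H437R2.Man.MW

/-- group theory -/
theorem grp4 {A : Type} [AddCommGroup A] [Finite A] (h4 : Nat.card {x : A // x + x = 0} = 4)
    (hdiv : ∀ T x : A, T + T = 0 → x + x = T → T = 0) : padicValNat 2 (Nat.card A) = 2 := by
  let f : A →+ A := nsmulAddMonoidHom 2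
  have hf : ∀ x, f x = x + x := fun x => two_nsmul x
  have hodd : ¬ 2 ∣ Nat.card f.range := by
    intro hev
    have hfin : Finite f.range := inferInstance
    have : Fact (Nat.Prime 2) := ⟨Nat.prime_two⟩
    obtain ⟨x, hx⟩ := exists_prime_addOrderOf_dvd_card' (G := f.range) 2 hev
    have hx0 : x ≠ 0 := by
      rintro rfl
      rw [addOrderOf_zero] at hx
      omega
    have hx2 : x + x = 0 := by
      have h3 := addOrderOf_nsmul_eq_zero x
      rw [hx, two_nsmul] at h3
      exact h3
    have hx2' : (x : A) + (x : A) = 0 := by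
      have := congrArg (fun y : f.range => (y : A)) hx2
      simpa using this
    obtain ⟨y, hy⟩ := x.2
    rw [hf] at hy
    exact hx0 (Subtype.ext (hdiv _ _ hx2' hy))
  have hker : Nat.card f.ker = 4 := by
    rw [← h4]
    refine Nat.card_congr (Equiv.subtypeEquivRight fun x => ?_)
    rw [AddMonoidHom.mem_ker, hf]
  have hcard : Nat.card A = 4 * Nat.card f.range := by
    rw [← AddSubgroup.card_mul_index f.ker, hker, AddSubgroup.index_ker]
  have hne : Nat.card f.range ≠ 0 := Nat.card_pos.ne'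
  have : Fact (Nat.Prime 2) := ⟨Nat.prime_two⟩
  rw [hcard, padicValNat.mul (by norm_num) hne, padicValNat.eq_zero_of_not_dvd hodd,
    show (4 : ℕ) = 2 ^ 2 by norm_num, padicValNat.prime_pow]

/-- the same for the torsion subgroup of a finitely generated group -/
theorem tor4 {A : Type} [AddCommGroup A] (hfg : AddGroup.FG A)
    (h4 : Nat.card {x : A // x + x = 0} = 4)
    (hdiv : ∀ T x : A, T + T = 0 → x + x = T → T = 0) :
    Finite (AddCommGroup.torsion A) ∧ padicValNat 2 (Nat.card (AddCommGroup.torsion A)) = 2 := by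
  have hfin : Finite (AddCommGroup.torsion A) := by
    have hmf : Module.Finite ℤ A := Module.Finite.iff_addGroup_fg.2 hfg
    have hsub : AddGroup.FG (AddCommGroup.torsion A) := by
      rw [← Module.Finite.iff_addGroup_fg]
      have h6 : Module.Finite ℤ (AddSubgroup.toIntSubmodule (AddCommGroup.torsion A)) :=
        inferInstance
      exact h6
    have htor : IsAddTorsion (AddCommGroup.torsion A) := by
      intro x
      have hx := x.2
      rw [AddCommGroup.mem_torsion, isOfFinAddOrder_iff_nsmul_eq_zero] at hx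
      obtain ⟨n, hn, hx⟩ := hx
      rw [isOfFinAddOrder_iff_nsmul_eq_zero]
      exact ⟨n, hn, Subtype.ext (by simpa using hx)⟩
    exact AddCommGroup.finite_of_fg_isAddTorsion _ htor
  refine ⟨hfin, grp4 ?_ ?_⟩
  · rw [← h4]
    refine Nat.card_congr ⟨fun x => ⟨x.1.1, congrArg Subtype.val x.2⟩, fun x => ⟨⟨x.1, ?_⟩, ?_⟩,
      fun x => rfl, fun x => rfl⟩
    · rw [AddCommGroup.mem_torsion, isOfFinAddOrder_iff_nsmul_eq_zero]
      exact ⟨2, by norm_num, by rw [two_nsmul]; exact x.2⟩
    · exact Subtype.ext x.2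
  · rintro ⟨T, hT⟩ ⟨x, hx⟩ h1 h2
    exact Subtype.ext (hdiv T x (congrArg Subtype.val h1) (congrArg Subtype.val h2))

section crv

variable {K : Type} [Field K] [CharZero K] [DecidableEq K] {e1 e2 e3 : K}

/-- the points of order two -/
lemma two_iff {x y : K} (h : (crv e1 e2 e3).toAffine.Nonsingular x y) :
    (Affine.Point.some x y h + Affine.Point.some x y h = 0) ↔ y = 0 := by
  rw [add_eq_zero_iff_eq_neg, Affine.Point.neg_some, Affine.Point.some.injEq]
  simp only [Affine.negY, crv]
  constructor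
  · rintro ⟨-, h1⟩
    have h3 : (2 : K) * y = 0 := by linear_combination h1
    exact (mul_eq_zero.1 h3).resolve_left two_ne_zero
  · intro h1
    subst h1
    exact ⟨trivial, by ring⟩

/-- the abscissa of a double -/
lemma dbl {x y : K} (h : (crv e1 e2 e3).toAffine.Nonsingular x y) (hy : y ≠ 0) {X Y : K}
    {H : (crv e1 e2 e3).toAffine.Nonsingular X Y}
    (h2 : Affine.Point.some x y h + Affine.Point.some x y h = Affine.Point.some X Y H) :
    IsSquare (X + e1) ∧ IsSquare (X + e2) ∧ IsSquare (X + e3) := by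
  have h3 := xRep_double h hy
  rw [h2, Affine.Point.xRep_some] at h3
  have h4 := congrFun h3 0
  simp only [Matrix.cons_val_zero] at h4
  have e' := crv_eqn.mp h.1
  have hy4 : (4 * y ^ 2) ≠ 0 := mul_ne_zero (by norm_num) (pow_ne_zero _ hy)
  refine ⟨⟨((x + e1) ^ 2 - (e2 - e1) * (e3 - e1)) / (2 * y), ?_⟩,
    ⟨((x + e2) ^ 2 - (e1 - e2) * (e3 - e2)) / (2 * y), ?_⟩,
    ⟨((x + e3) ^ 2 - (e1 - e3) * (e2 - e3)) / (2 * y), ?_⟩⟩
  · rw [h4]
    field_simp
    linear_combination (16 * e1) * e'
  · rw [h4]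
    field_simp
    linear_combination (16 * e2) * e'
  · rw [h4]
    field_simp
    linear_combination (16 * e3) * e'

theorem no_four (h12 : ¬ IsSquare (e2 - e1)) (h23 : ¬ IsSquare (e3 - e2))
    (h31 : ¬ IsSquare (e2 - e3)) (T P : Pt e1 e2 e3) (hT : T + T = 0) (hP : P + P = T) : T = 0 := by
  rcases T with _ | ⟨X, Y, H⟩
  · rfl
  exfalso
  rcases P with _ | ⟨x, y, h⟩
  · have h0 : (Affine.Point.zero : Pt e1 e2 e3) + Affine.Point.zero = 0 := add_zero _
    rw [h0] at hP
    exact Affine.Point.some_ne_zero _ hP.symm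
  have hY := (two_iff H).1 hT
  have hy : y ≠ 0 := by
    intro h0
    rw [(two_iff h).2 h0] at hP
    exact Affine.Point.some_ne_zero _ hP.symm
  obtain ⟨s1, s2, s3⟩ := dbl h hy hP
  have e' := crv_eqn.mp H.1
  rw [hY, zero_pow two_ne_zero, eq_comm, mul_eq_zero, mul_eq_zero] at e'
  rcases e' with (h0 | h0) | h0
  · apply h12
    have : X + e2 = e2 - e1 := by linear_combination h0
    rwa [this] at s2
  · apply h23
    have : X + e3 = e3 - e2 := by linear_combination h0
    rwa [this] at s3
  · apply h31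
    have : X + e2 = e2 - e3 := by linear_combination h0
    rwa [this] at s2

theorem card_two (h12 : e1 ≠ e2) (h13 : e1 ≠ e3) (h23 : e2 ≠ e3) :
    Nat.card {P : Pt e1 e2 e3 // P + P = 0} = 4 := by
  have n1 : (crv e1 e2 e3).toAffine.Nonsingular (-e1) 0 :=
    crv_nonsing h12 h13 h23 (by ring)
  have n2 : (crv e1 e2 e3).toAffine.Nonsingular (-e2) 0 :=
    crv_nonsing h12 h13 h23 (by ring)
  have n3 : (crv e1 e2 e3).toAffine.Nonsingular (-e3) 0 :=
    crv_nonsing h12 h13 h23 (by ring)
  let g : Fin 4 → {P : Pt e1 e2 e3 // P + P = 0} :=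
    ![⟨0, add_zero _⟩, ⟨.some _ _ n1, (two_iff n1).2 rfl⟩, ⟨.some _ _ n2, (two_iff n2).2 rfl⟩,
      ⟨.some _ _ n3, (two_iff n3).2 rfl⟩]
  have hg : Function.Bijective g := by
    constructor
    · intro i j hij
      fin_cases i <;> fin_cases j <;>
        simp_all [g, Affine.Point.some_ne_zero, Ne.symm]
    · rintro ⟨P, hP⟩
      rcases P with _ | ⟨x, y, h⟩
      · exact ⟨0, rfl⟩
      · have hy := (two_iff h).1 hP
        subst hy
        have e' := crv_eqn.mp h.1
        rw [zero_pow two_ne_zero, eq_comm, mul_eq_zero, mul_eq_zero] at e'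
        rcases e' with (h0 | h0) | h0
        · obtain rfl := eq_neg_of_add_eq_zero_left h0
          exact ⟨1, rfl⟩
        · obtain rfl := eq_neg_of_add_eq_zero_left h0
          exact ⟨2, rfl⟩
        · obtain rfl := eq_neg_of_add_eq_zero_left h0
          exact ⟨3, rfl⟩
  rw [← Nat.card_congr (Equiv.ofBijective g hg), Nat.card_eq_fintype_card, Fintype.card_fin]

end crv

end Pool.Agent.T2h20.KE
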